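import Pool.Agent.Lib.MP_4ed7e0_lc_F.Defs

/-!
# MP_4ed7e0_lc, project F: finite algebras over the ring of power series are complete
-/

set_option autoImplicit false

namespace Pool.Agent.R4F

universe u

private theorem com_pi {R : Type u} [CommRing R] (I : Ideal R) [IsPrecomplete I R] (n : ℕ) :
    IsPrecomplete I (Fin n → R) := by
  refine ⟨fun f hf => ?_⟩
  have h1 : ∀ (k : ℕ) (x : Fin n → R), x ∈ (I ^ k • ⊤ : Submodule R (Fin n → R)) →
      ∀ i, x i ∈ (I ^ k • ⊤ : Submodule R R) := by
    intro k x hx i
    have h2 : (LinearMap.proj i : (Fin n → R) →ₗ[R] R) x ∈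
        Submodule.map (LinearMap.proj i : (Fin n → R) →ₗ[R] R) (I ^ k • ⊤) :=
      Submodule.mem_map_of_mem hx
    rw [Submodule.map_smul''] at h2
    exact Submodule.smul_mono le_rfl le_top h2
  have h3 : ∀ i, ∃ L : R, ∀ k, f k i ≡ L [SMOD (I ^ k • ⊤ : Submodule R R)] := by
    intro i
    refine IsPrecomplete.prec inferInstance fun {a b} hab => ?_
    have h4 := hf hab
    rw [SModEq.sub_mem] at h4 ⊢
    exact h1 _ _ h4 i
  choose L hL using h3
  refine ⟨L, fun k => ?_⟩
  rw [SModEq.sub_mem]
  have h5 : f k - L = ∑ i, (f k i - L i) • (Pi.single i (1 : R) : Fin n → R) := by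
    funext j
    simp [Finset.sum_apply, Pi.single_apply]
  rw [h5]
  refine Submodule.sum_mem _ fun i _ => ?_
  have h6 := hL i k
  rw [SModEq.sub_mem, smul_eq_mul, Ideal.mul_top] at h6
  exact Submodule.smul_mem_smul h6 Submodule.mem_top

/-- Completeness for the ideal generated by `X`.

Proof. `I = Ideal.span {X}` in `R = PowerSeries K`. By `IsAdicComplete.map_algebraMap_iff`-like
lemmas (`Mathlib/RingTheory/AdicCompletion/Basic.lean`, near line 705) and `Ideal.map_span` it is
enough that `A` is `I`-adically complete as an `R`-module. Hausdorff: `IsHausdorff.of_isLocalRing`.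
Precomplete: `R` is `I`-adically complete (instance in `AdicCompletion/Completeness.lean`), hence so
is `Fin n → R` (coordinates), hence its image under a surjective linear map: lift the differences
`f (n + 1) - f n ∈ I ^ n A` of a Cauchy sequence to `I ^ n (Fin n → R)`. -/
theorem com_X {K : Type u} [Field K] {A : Type u} [CommRing A] [Algebra (PowerSeries K) A]
    [Module.Finite (PowerSeries K) A] :
    IsAdicComplete (Ideal.span {algebraMap (PowerSeries K) A PowerSeries.X}) A := by
  have h0 : Ideal.span {algebraMap (PowerSeries K) A PowerSeries.X} =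
      (Ideal.span {(PowerSeries.X : PowerSeries K)}).map (algebraMap (PowerSeries K) A) := by
    rw [Ideal.map_span, Set.image_singleton]
  rw [h0, IsAdicComplete.map_algebraMap_iff]
  have hne : (Ideal.span {(PowerSeries.X : PowerSeries K)}) ≠ ⊤ := by
    rw [Ne, Ideal.span_singleton_eq_top]
    exact PowerSeries.X_prime.not_isUnit
  have hH : IsHausdorff (Ideal.span {(PowerSeries.X : PowerSeries K)}) A :=
    IsHausdorff.of_isLocalRing _ _ hne
  obtain ⟨n, φ, hφ⟩ := Module.Finite.exists_fin' (PowerSeries K) A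
  have hpi : IsPrecomplete (Ideal.span {(PowerSeries.X : PowerSeries K)})
      (Fin n → PowerSeries K) := com_pi _ n
  have hP : IsPrecomplete (Ideal.span {(PowerSeries.X : PowerSeries K)}) A := by
    rw [← AdicCompletion.of_surjective_iff]
    intro y
    obtain ⟨z, hz⟩ := AdicCompletion.map_surjective
      (Ideal.span {(PowerSeries.X : PowerSeries K)}) hφ y
    obtain ⟨w, hw⟩ := AdicCompletion.of_surjective
      (Ideal.span {(PowerSeries.X : PowerSeries K)}) (Fin n → PowerSeries K) z
    refine ⟨φ w, ?_⟩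
    rw [← AdicCompletion.map_of, hw, hz]
  exact { hH, hP with }

/-- Completeness for the radical.

Proof. `A` is noetherian, so `J ^ k ≤ I ≤ J` for some `k`, `J = I.radical`
(`Ideal.exists_radical_pow_le_of_fg`). Hausdorff: `⋂ J ^ n ≤ ⋂ I ^ n`. Precomplete: let `f` be a
Cauchy sequence for `J`; then `n ↦ f (k * n)` is Cauchy for `I`, with a limit `l` for `I`, and
`f n - l = (f n - f (k * n)) + (f (k * n) - l) ∈ J ^ n` (take `k ≥ 1`). -/
theorem com {K : Type u} [Field K] {A : Type u} [CommRing A] [Algebra (PowerSeries K) A]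
    [Module.Finite (PowerSeries K) A] :
    IsAdicComplete (Ideal.span {algebraMap (PowerSeries K) A PowerSeries.X}).radical A := by
  have hA : IsNoetherianRing A := IsNoetherianRing.of_finite (PowerSeries K) A
  have hc : IsAdicComplete (Ideal.span {algebraMap (PowerSeries K) A PowerSeries.X}) A := com_X
  generalize (Ideal.span {algebraMap (PowerSeries K) A PowerSeries.X}) = I at hc
  obtain ⟨k0, hk0⟩ := I.exists_radical_pow_le_of_fg (IsNoetherian.noetherian _)
  obtain ⟨k, hk1, hk⟩ : ∃ k, 1 ≤ k ∧ I.radical ^ k ≤ I :=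
    ⟨k0 + 1, by omega, (Ideal.pow_le_pow_right (Nat.le_succ k0)).trans hk0⟩
  have hkn : ∀ n, (I.radical ^ (k * n) • ⊤ : Submodule A A) ≤ I ^ n • ⊤ := fun n => by
    refine Submodule.smul_mono_left ?_
    rw [pow_mul]
    exact Ideal.pow_right_mono hk n
  have hIJ : ∀ n, (I ^ n • ⊤ : Submodule A A) ≤ I.radical ^ n • ⊤ := fun n =>
    Submodule.smul_mono_left (Ideal.pow_right_mono Ideal.le_radical n)
  have hH : IsHausdorff I.radical A := by
    refine ⟨fun x hx => ?_⟩
    refine IsHausdorff.haus (inferInstance : IsHausdorff I A) x fun n => ?_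
    exact (hx (k * n)).mono (hkn n)
  have hP : IsPrecomplete I.radical A := by
    refine ⟨fun f hf => ?_⟩
    obtain ⟨l, hl⟩ := IsPrecomplete.prec (inferInstance : IsPrecomplete I A)
      (f := fun n => f (k * n)) (fun {a b} hab => (hf (Nat.mul_le_mul_left k hab)).mono (hkn a))
    refine ⟨l, fun n => ?_⟩
    exact (hf (Nat.le_mul_of_pos_left n hk1)).trans ((hl n).mono (hIJ n))
  exact { hH, hP with }

end Pool.Agent.R4F
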