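import Mathlib
import Pool.Agent.Lib.MP_4ed7e0_lc.Defs

/-!
# MP_4ed7e0_lc, project F: large fields with finitely many Artin-Schreier extensions. Definitions.

`Large K` and `IsRat K O` are in `Pool/Agent/Lib/MP_4ed7e0_lc/Defs.lean`.
-/

set_option autoImplicit false

namespace Pool.Agent.R4F

noncomputable section

universe u v

/-- The finite system `S` of polynomial equations over `K` has a solution in `M`. -/
def Solv (K : Type u) [Field K] (M : Type v) [CommRing M] [Algebra K M] {n : ℕ}
    (S : Finset (MvPolynomial (Fin n) K)) : Prop :=
  ∃ x : Fin n → M, ∀ q ∈ S, MvPolynomial.aeval x q = 0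

/-- Every finite system of polynomial equations over `K` solvable in `L` is solvable in `M`. -/
def Tr (K : Type u) (L M : Type v) [Field K] [Field L] [Algebra K L] [Field M]
    [Algebra K M] : Prop :=
  ∀ (n : ℕ) (S : Finset (MvPolynomial (Fin n) K)), Solv K L S → Solv K M S

/-- `K` is existentially closed in `L`: every finite system of polynomial equations over `K` solvable
in `L` is solvable in `K`. -/
def EC (K L : Type u) [Field K] [Field L] [Algebra K L] : Prop := Tr K L K

/-- The additive group of the elements `y ^ p - y` has finite index in `K`. If `K` is a field of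
characteristic `p` this means that `K` has only finitely many cyclic extensions of degree `p`. -/
def FewAS (p : ℕ) (K : Type u) [Field K] : Prop :=
  ∃ T : Finset K, ∀ x : K, ∃ c ∈ T, ∃ y : K, x = c + (y ^ p - y)

/-- `L` is separable over `K` (criterion of MacLane, characteristic `p`): the `p`-th powers of
`K`-linearly independent elements are `K`-linearly independent. -/
def Sepa (p : ℕ) (K L : Type u) [Field K] [Field L] [Algebra K L] : Prop :=
  ∀ s : Finset L, LinearIndepOn K id (s : Set L) → LinearIndepOn K (fun x => x ^ p) (s : Set L)

/-- The perfect hull of `K`: the elements of an algebraic closure which are purely inseparable over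
`K`. -/
abbrev Hull (K : Type u) [Field K] : Type u := perfectClosure K (AlgebraicClosure K)

/-- Representatives in `K` of the classes of `M` modulo the elements `y ^ p - y`. -/
def FewIn (p : ℕ) (K M : Type u) [Field K] [Field M] [Algebra K M] : Prop :=
  ∃ T : Finset K, ∀ x : M, ∃ c ∈ T, ∃ y : M, x = algebraMap K M c + (y ^ p - y)

end

end Pool.Agent.R4F
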