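import Pool.Agent.Lib.MP_4ed7e0_lc_F.Defs

/-!
# MP_4ed7e0_lc, project F: Frobenius twists of polynomials
-/

set_option autoImplicit false

namespace Pool.Agent.R4F

universe u

open MvPolynomial

/-- The `p`-th power of a value is the value of the twisted polynomial at the `p`-th powers. -/
theorem frb (p : ℕ) [Fact p.Prime] {k : Type u} [Field k] [CharP k p] {A : Type u} [CommRing A]
    [CharP A p] [Algebra k A] {n : ℕ} (r : MvPolynomial (Fin n) k) (x : Fin n → A) :
    aeval x r ^ p = aeval (fun i => x i ^ p) (map (frobenius k p) r) := by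
  induction r using MvPolynomial.induction_on with
  | C a =>
    rw [map_C, aeval_C, aeval_C, frobenius_def, map_pow]
  | add f g hf hg =>
    rw [map_add, map_add, map_add, ← hf, ← hg, add_pow_char]
  | mul_X f i hf =>
    rw [map_mul, map_mul, map_mul, map_X, aeval_X, aeval_X, ← hf, mul_pow]

/-- If `x i ^ p` is congruent to `a i` modulo `I` for all `i` and the twisted polynomial vanishes at
`a`, then `aeval x r ^ p ∈ I`. In the application `a i` are elements of `K` whose `p`-th roots in an
extension `E` of `K` are zeros of `r`.

Proof. `frb` in `A`; modulo `I` the value is the value at the `a i`, which is the image of an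
element `e` of `K`; the image of `e` in `E` is `aeval τ r ^ p = 0`, by `frb` in `E`. -/
theorem frb_mem (p : ℕ) [Fact p.Prime] {k K E A : Type u} [Field k] [CharP k p] [Field K]
    [Algebra k K] [Field E] [Algebra K E] [Algebra k E] [IsScalarTower k K E] [CommRing A]
    [CharP A p] [Algebra K A] [Algebra k A] [IsScalarTower k K A] {n : ℕ}
    (r : MvPolynomial (Fin n) k) (τ : Fin n → E) (a : Fin n → K)
    (hτ : ∀ i, τ i ^ p = algebraMap K E (a i)) (h0 : aeval τ r = 0) (I : Ideal A)
    (x : Fin n → A) (hx : ∀ i, x i ^ p - algebraMap K A (a i) ∈ I) : aeval x r ^ p ∈ I := by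
  haveI : CharP E p := charP_of_injective_algebraMap (algebraMap k E).injective p
  have hE : algebraMap K E (aeval a (map (frobenius k p) r)) = 0 := by
    have h1 : algebraMap K E (aeval a (map (frobenius k p) r)) =
        aeval (fun i => τ i ^ p) (map (frobenius k p) r) := by
      rw [← IsScalarTower.toAlgHom_apply k K E, comp_aeval_apply]
      congr 2
      funext i
      rw [hτ i]
      rfl
    rw [h1, ← frb p r τ, h0, zero_pow (Fact.out : p.Prime).ne_zero]
  have he : aeval a (map (frobenius k p) r) = 0 := (map_eq_zero (algebraMap K E)).1 hE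
  rw [frb p r x, ← Ideal.Quotient.eq_zero_iff_mem]
  have h2 : Ideal.Quotient.mk I (aeval (fun i => x i ^ p) (map (frobenius k p) r)) =
      Ideal.Quotient.mk I (algebraMap K A (aeval a (map (frobenius k p) r))) := by
    have h3 : algebraMap K A (aeval a (map (frobenius k p) r)) =
        aeval (fun i => algebraMap K A (a i)) (map (frobenius k p) r) := by
      rw [← IsScalarTower.toAlgHom_apply k K A, comp_aeval_apply]
      rfl
    rw [h3]
    have h4 : ∀ y : Fin n → A, Ideal.Quotient.mk I (aeval y (map (frobenius k p) r)) =
        eval₂ ((Ideal.Quotient.mk I).comp (algebraMap k A)) (fun i => Ideal.Quotient.mk I (y i))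
          (map (frobenius k p) r) := by
      intro y
      rw [aeval_def, hom_eval₂]
    rw [h4, h4]
    congr 1
    funext i
    exact Ideal.Quotient.eq.2 (hx i)
  rw [h2, he, map_zero, map_zero]

end Pool.Agent.R4F
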