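import Pool.Agent.Lib.MP_4ed7e0_lc_F.Defs

/-!
# MP_4ed7e0_lc, project F: generic smoothness
-/

set_option autoImplicit false

namespace Pool.Agent.R4F

universe u

private theorem Gen_sepa (p : ℕ) [Fact p.Prime] {K L : Type u} [Field K] [CharP K p] [Field L]
    [Algebra K L] (hs : Sepa p K L) (N : IntermediateField K L) : Sepa p K N := by
  classical
  intro s h
  have h0 : LinearIndependent K (fun x : (s : Set N) => (x : N)) := h
  have h1 : LinearIndependent K (fun x : (s : Set N) => ((x : N) : L)) :=
    h0.map' N.val.toLinearMap (LinearMap.ker_eq_bot.2 N.val.injective)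
  let t : Finset L := s.image (fun x : N => (x : L))
  have ht : (t : Set L) = Set.range (fun x : (s : Set N) => ((x : N) : L)) := by
    ext y
    simp [t]
  have h2 : LinearIndepOn K id (t : Set L) := by
    rw [ht]
    exact (linearIndepOn_id_range_iff h1.injective).2 h1
  have h3 := hs t h2
  have h4 : LinearIndependent K (fun x : (s : Set N) => ((x : N) : L) ^ p) := by
    have h5 : LinearIndependent K (fun y : (t : Set L) => (y : L) ^ p) := h3
    let e : ↥(s : Set N) → ↥(t : Set L) := fun x => ⟨((x : N) : L), by
      rw [ht]
      exact ⟨x, rfl⟩⟩
    have he : Function.Injective e := by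
      intro x y hxy
      have h6 : ((x : N) : L) = ((y : N) : L) := congrArg (fun z : ↥(t : Set L) => (z : L)) hxy
      exact Subtype.ext (Subtype.ext h6)
    exact h5.comp e he
  have h7 : LinearIndependent K (fun x : (s : Set N) => (x : N) ^ p) := by
    refine LinearIndependent.of_comp N.val.toLinearMap ?_
    exact h4
  exact h7

open scoped IntermediateField.algebraAdjoinAdjoin in
private theorem Gen_smooth (p : ℕ) [Fact p.Prime] {K L : Type u} [Field K] [CharP K p] [Field L]
    [Algebra K L] (hs : Sepa p K L) {n : ℕ} (x : Fin n → L) :
    Algebra.IsSmoothAt K (⊥ : Ideal (Algebra.adjoin K (Set.range x))) := by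
  have hN := Gen_sepa p hs (IntermediateField.adjoin K (Set.range x))
  have hess : Algebra.EssFiniteType K (IntermediateField.adjoin K (Set.range x)) := by
    rw [IntermediateField.essFiniteType_iff]
    exact IntermediateField.fg_adjoin_of_finite (Set.finite_range x)
  obtain ⟨s, hs1, hs2⟩ :=
    exists_isTranscendenceBasis_and_isSeparable_of_linearIndepOn_pow_of_essFiniteType
      (k := K) (K := IntermediateField.adjoin K (Set.range x)) p Fact.out hN
  have hsm : Algebra.FormallySmooth K (IntermediateField.adjoin K (Set.range x)) := by
    have : Algebra.IsSeparable (↥(IntermediateField.adjoin K (Set.range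
        ((↑) : s → IntermediateField.adjoin K (Set.range x)))))
        (IntermediateField.adjoin K (Set.range x)) := by
      convert! hs2 <;> simp
    exact .of_algebraicIndependent_of_isSeparable hs1.1
  have hloc : IsLocalization (⊥ : Ideal (Algebra.adjoin K (Set.range x))).primeCompl
      (IntermediateField.adjoin K (Set.range x)) := by
    have h1 : (⊥ : Ideal (Algebra.adjoin K (Set.range x))).primeCompl =
        nonZeroDivisors (Algebra.adjoin K (Set.range x)) := by
      ext y
      simp [Ideal.primeCompl, mem_nonZeroDivisors_iff_ne_zero]
    rw [h1]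
    infer_instance
  have e := IsLocalization.algEquiv (⊥ : Ideal (Algebra.adjoin K (Set.range x))).primeCompl
    (IntermediateField.adjoin K (Set.range x))
    (Localization.AtPrime (⊥ : Ideal (Algebra.adjoin K (Set.range x))))
  exact Algebra.FormallySmooth.of_equiv (e.restrictScalars K)

/-- A solution in a separable extension gives a smooth algebra with a point in `L`, all of whose
points in extension fields give solutions.

Proof. Let `x` be the solution, `B = Algebra.adjoin K (Set.range x)`, a finitely generated domain,
and `N = IntermediateField.adjoin K (Set.range x)`, its field of fractions (the scoped instances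
`IntermediateField.algebraAdjoinAdjoin`). `N` satisfies the hypothesis of
`exists_isTranscendenceBasis_and_isSeparable_of_linearIndepOn_pow_of_essFiniteType` (linear
independence in `N` and in `L` is the same), so `N` is formally smooth over `K` by
`Algebra.FormallySmooth.of_algebraicIndependent_of_isSeparable`, hence so is
`Localization.AtPrime (⊥ : Ideal B)` (both are fraction fields of `B`:
`Algebra.FormallySmooth.of_equiv`). By `Algebra.IsSmoothAt.exists_notMem_smooth` there is `b ≠ 0` in
`B` such that `C = Localization.Away b` is smooth over `K`. The inclusion `B → L` extends to `C`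
(`IsLocalization.Away.lift`). If `g : C →ₐ[K] E` then the images of the `x i` solve the system: the
composite `B → C → E` is a homomorphism. -/
theorem gen (p : ℕ) [Fact p.Prime] {K L : Type u} [Field K] [CharP K p] [Field L] [Algebra K L]
    (hs : Sepa p K L) {n : ℕ} (S : Finset (MvPolynomial (Fin n) K)) (hS : Solv K L S) :
    ∃ (C : Type u) (_ : CommRing C) (_ : Algebra K C), Algebra.FiniteType K C ∧
      Algebra.FormallySmooth K C ∧ Nonempty (C →ₐ[K] L) ∧
      ∀ (E : Type u) [Field E] [Algebra K E], Nonempty (C →ₐ[K] E) → Solv K E S := by
  obtain ⟨x, hx⟩ := hS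
  have h1 := Gen_smooth p hs x
  have hfin : Algebra.FiniteType K (Algebra.adjoin K (Set.range x)) :=
    .adjoin_of_finite (Set.finite_range x)
  have hfp : Algebra.FinitePresentation K (Algebra.adjoin K (Set.range x)) :=
    Algebra.FinitePresentation.of_finiteType.1 hfin
  obtain ⟨f, hf, hsm⟩ := Algebra.IsSmoothAt.exists_notMem_smooth K
    (⊥ : Ideal (Algebra.adjoin K (Set.range x)))
  refine ⟨Localization.Away f, inferInstance, inferInstance, inferInstance, inferInstance, ?_, ?_⟩
  · refine ⟨IsLocalization.Away.liftAlgHom (S := Localization.Away f) f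
      (f := (Algebra.adjoin K (Set.range x)).val) ?_⟩
    rw [isUnit_iff_ne_zero]
    intro h
    apply hf
    rw [Ideal.mem_bot]
    exact Subtype.ext h
  · rintro E _ _ ⟨g⟩
    let y : Fin n → Algebra.adjoin K (Set.range x) :=
      fun i => ⟨x i, Algebra.subset_adjoin ⟨i, rfl⟩⟩
    refine ⟨fun i => g (algebraMap _ (Localization.Away f) (y i)), fun q hq => ?_⟩
    have h2 : MvPolynomial.aeval y q = 0 := by
      apply Subtype.ext
      have h3 : ((MvPolynomial.aeval y q : Algebra.adjoin K (Set.range x)) : L) =
          MvPolynomial.aeval x q := by
        have := MvPolynomial.comp_aeval_apply (φ := (Algebra.adjoin K (Set.range x)).val) y q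
        exact this
      rw [h3, hx q hq]
      rfl
    have h4 := MvPolynomial.comp_aeval_apply
      (φ := g.comp (IsScalarTower.toAlgHom K (Algebra.adjoin K (Set.range x))
        (Localization.Away f))) y q
    rw [h2, map_zero] at h4
    exact h4.symm

end Pool.Agent.R4F
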