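import Pool.Agent.Lib.MP_4ed7e0_lc_F.Defs

/-!
# MP_4ed7e0_lc, project F: the fields of the elements with `p ^ m`-th power in `K`
-/

set_option autoImplicit false

namespace Pool.Agent.R4F

universe u

open Pool.Agent.R4A

/-- A ring homomorphism applied to the coefficients of the Laurent series. -/
private noncomputable def isoMapL {K K' : Type u} [Field K] [Field K'] (f : K →+* K') :
    LaurentSeries K →+* LaurentSeries K' where
  toFun x := HahnSeries.map x f
  map_one' := HahnSeries.map_one f.toMonoidWithZeroHom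
  map_mul' _ _ := HahnSeries.map_mul f.toNonUnitalRingHom
  map_zero' := HahnSeries.map_zero f.toMonoidWithZeroHom.toZeroHom
  map_add' _ _ := HahnSeries.map_add f.toAddMonoidHom

private theorem isoMapL_algebraMap {K K' : Type u} [Field K] [Field K'] (f : K →+* K') (a : K) :
    isoMapL f (algebraMap K (LaurentSeries K) a) = algebraMap K' (LaurentSeries K') (f a) := by
  rw [LaurentSeries.algebraMap_apply, LaurentSeries.algebraMap_apply]
  exact HahnSeries.map_C a f

/-- Proof. An isomorphism `e : K ≃+* K'` induces an isomorphism of the fields of Laurent series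
(`HahnSeries.map`, `HahnSeries.map_mul`), compatible with the constants; transport the systems by
`MvPolynomial.map`. -/
theorem Large.of_equiv {K K' : Type u} [Field K] [Field K'] (e : K ≃+* K') (hK : Large K) :
    Large K' := by
  classical
  intro n S hS
  obtain ⟨x, hx⟩ := hS
  obtain ⟨y, hy⟩ := hK n (S.image (MvPolynomial.map (e.symm : K' →+* K)))
    ⟨fun i => isoMapL (e.symm : K' →+* K) (x i), by
      intro q hq
      obtain ⟨r, hr, rfl⟩ := Finset.mem_image.mp hq
      have h1 := congrArg (isoMapL (e.symm : K' →+* K)) (hx r hr)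
      rw [map_zero, MvPolynomial.aeval_def, MvPolynomial.hom_eval₂] at h1
      rw [MvPolynomial.aeval_def, MvPolynomial.eval₂_map, ← h1]
      congr 1
      ext a
      simp only [RingHom.comp_apply]
      rw [isoMapL_algebraMap]⟩
  refine ⟨fun i => e (y i), fun q hq => ?_⟩
  have h1 := hy _ (Finset.mem_image_of_mem _ hq)
  have h2 := congrArg (e : K →+* K') h1
  rw [map_zero, MvPolynomial.eval_map, MvPolynomial.hom_eval₂] at h2
  rw [← h2, MvPolynomial.eval]
  simp only [MvPolynomial.coe_eval₂Hom]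
  congr 1
  ext a
  simp

theorem FewAS.of_equiv {p : ℕ} {K K' : Type u} [Field K] [Field K'] (e : K ≃+* K')
    (hK : FewAS p K) : FewAS p K' := by
  classical
  obtain ⟨T, hT⟩ := hK
  refine ⟨T.image e, fun x => ?_⟩
  obtain ⟨c, hc, y, hy⟩ := hT (e.symm x)
  refine ⟨e c, Finset.mem_image_of_mem _ hc, e y, ?_⟩
  have h1 := congrArg e hy
  rw [RingEquiv.apply_symm_apply] at h1
  rw [h1, map_add, map_sub, map_pow]

/-- The elements of `Ω` with `p ^ m`-th power in `K`. -/
def Kp (p : ℕ) [Fact p.Prime] (K : Type u) (Ω : Type u) [Field K] [CharP K p] [Field Ω]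
    [Algebra K Ω] (m : ℕ) : IntermediateField K Ω where
  carrier := {x | ∃ a : K, x ^ p ^ m = algebraMap K Ω a}
  mul_mem' := by
    rintro x y ⟨a, ha⟩ ⟨b, hb⟩
    exact ⟨a * b, by rw [mul_pow, ha, hb, map_mul]⟩
  one_mem' := ⟨1, by rw [one_pow, map_one]⟩
  add_mem' := by
    rintro x y ⟨a, ha⟩ ⟨b, hb⟩
    have : CharP Ω p := charP_of_injective_algebraMap (algebraMap K Ω).injective p
    exact ⟨a + b, by rw [add_pow_char_pow, ha, hb, map_add]⟩
  zero_mem' := ⟨0, by rw [zero_pow (pow_ne_zero m (Fact.out : p.Prime).ne_zero), map_zero]⟩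
  algebraMap_mem' := fun a => ⟨a ^ p ^ m, by rw [map_pow]⟩
  inv_mem' := by
    rintro x ⟨a, ha⟩
    exact ⟨a⁻¹, by rw [inv_pow, ha, map_inv₀]⟩

/-- If `Ω` is algebraically closed then `x ↦ x ^ p ^ m` is an isomorphism from `Kp p K Ω m` to
`K`. -/
theorem Kp_equiv (p : ℕ) [Fact p.Prime] (K : Type u) (Ω : Type u) [Field K] [CharP K p] [Field Ω]
    [Algebra K Ω] [IsAlgClosed Ω] (m : ℕ) : Nonempty (K ≃+* Kp p K Ω m) := by
  have hΩ : CharP Ω p := charP_of_injective_algebraMap (algebraMap K Ω).injective p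
  have hE : ExpChar Ω p := inferInstance
  have h1 : Function.Bijective (algebraMap K Ω).rangeRestrict :=
    ⟨fun a b hab => (algebraMap K Ω).injective (congrArg Subtype.val hab),
      (algebraMap K Ω).rangeRestrict_surjective⟩
  let g : Kp p K Ω m →+* (algebraMap K Ω).range :=
    ((iterateFrobenius Ω p m).comp (Kp p K Ω m).val.toRingHom).codRestrict _ (by
      rintro ⟨x, a, ha⟩
      refine ⟨a, ?_⟩
      rw [← ha]
      rfl)
  have h2 : Function.Bijective g := by
    refine ⟨fun x y hxy => ?_, ?_⟩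
    · have h3 : iterateFrobenius Ω p m x.1 = iterateFrobenius Ω p m y.1 :=
        congrArg Subtype.val hxy
      exact Subtype.ext ((iterateFrobenius Ω p m).injective h3)
    · rintro ⟨y, a, rfl⟩
      obtain ⟨x, hx⟩ := IsAlgClosed.exists_pow_nat_eq (algebraMap K Ω a)
        (pow_pos (Fact.out : p.Prime).pos m)
      exact ⟨⟨x, a, hx⟩, Subtype.ext hx⟩
  exact ⟨(RingEquiv.ofBijective _ h1).trans (RingEquiv.ofBijective g h2).symm⟩

end Pool.Agent.R4F
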