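import Pool.Agent.Lib.MP_4ed7e0_lc_F.Defs

/-!
# MP_4ed7e0_lc, project F: the place on the perfect hull
-/

set_option autoImplicit false

namespace Pool.Agent.R4F

universe u

open Pool.Agent.R4A

private theorem hull_pow (p : ℕ) [Fact p.Prime] {L : Type u} [Field L] [CharP L p]
    (x : Hull L) : ∃ (n : ℕ) (z : L), x ^ p ^ n = algebraMap L (Hull L) z := by
  have : ExpChar L p := ExpChar.prime Fact.out
  obtain ⟨n, z, hz⟩ := (mem_perfectClosure_iff_pow_mem p).1 x.2
  refine ⟨n, z, Subtype.ext ?_⟩
  exact hz.symm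

private theorem hull_mk (p : ℕ) [Fact p.Prime] {L : Type u} [Field L] [CharP L p] (n : ℕ)
    (c : L) : ∃ d : Hull L, d ^ p ^ n = algebraMap L (Hull L) c := by
  have : ExpChar L p := ExpChar.prime Fact.out
  have hp : p.Prime := Fact.out
  obtain ⟨d, hd⟩ := IsAlgClosed.exists_pow_nat_eq (algebraMap L (AlgebraicClosure L) c)
    (n := p ^ n) (pow_pos hp.pos n)
  refine ⟨⟨d, (mem_perfectClosure_iff_pow_mem p).2 ⟨n, c, hd.symm⟩⟩, Subtype.ext ?_⟩
  exact hd

/-- The valuation ring of the perfect hull of `L` over `O`.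

Proof. `carrier = {x | ∃ n, x ^ p ^ n ∈ O}` (image of `O` in `Hull L`): closed under sums in
characteristic `p`, `x` or `x⁻¹` belongs to it, because some `x ^ p ^ n` is in `L`
(`mem_perfectClosure_iff_pow_mem`). -/
theorem hull_ring (p : ℕ) [Fact p.Prime] {L : Type u} [Field L] [CharP L p]
    (O : ValuationSubring L) :
    ∃ O' : ValuationSubring (Hull L), ∀ x : Hull L,
      x ∈ O' ↔ ∃ (n : ℕ) (y : L), y ∈ O ∧ x ^ p ^ n = algebraMap L (Hull L) y := by
  have : CharP (Hull L) p := charP_of_injective_algebraMap (algebraMap L (Hull L)).injective p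
  have hmul : ∀ {a b : Hull L},
      (∃ (n : ℕ) (y : L), y ∈ O ∧ a ^ p ^ n = algebraMap L (Hull L) y) →
      (∃ (n : ℕ) (y : L), y ∈ O ∧ b ^ p ^ n = algebraMap L (Hull L) y) →
      ∃ (n : ℕ) (y : L), y ∈ O ∧ (a * b) ^ p ^ n = algebraMap L (Hull L) y := by
    rintro a b ⟨n, y, hy, h1⟩ ⟨m, z, hz, h2⟩
    refine ⟨n + m, y ^ p ^ m * z ^ p ^ n, mul_mem (pow_mem hy _) (pow_mem hz _), ?_⟩
    rw [map_mul, map_pow, map_pow, ← h1, ← h2, ← pow_mul, ← pow_mul, mul_pow, pow_add,
      mul_comm (p ^ m) (p ^ n)]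
  have hneg1 : ∃ (n : ℕ) (y : L), y ∈ O ∧ (-1 : Hull L) ^ p ^ n = algebraMap L (Hull L) y :=
    ⟨0, -1, neg_mem (one_mem O), by simp⟩
  refine ⟨{ carrier := {x | ∃ (n : ℕ) (y : L), y ∈ O ∧ x ^ p ^ n = algebraMap L (Hull L) y}
            mul_mem' := fun ha hb => hmul ha hb
            one_mem' := ⟨0, 1, one_mem O, by simp⟩
            add_mem' := ?_
            zero_mem' := ⟨0, 0, zero_mem O, by simp⟩
            neg_mem' := ?_
            mem_or_inv_mem' := ?_ }, fun x => Iff.rfl⟩
  · rintro a b ⟨n, y, hy, h1⟩ ⟨m, z, hz, h2⟩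
    refine ⟨n + m, y ^ p ^ m + z ^ p ^ n, add_mem (pow_mem hy _) (pow_mem hz _), ?_⟩
    rw [map_add, map_pow, map_pow, ← h1, ← h2, ← pow_mul, ← pow_mul, add_pow_char_pow, pow_add,
      mul_comm (p ^ m) (p ^ n)]
  · intro x hx
    have h := hmul hneg1 hx
    rw [neg_one_mul] at h
    exact h
  · intro x
    obtain ⟨n, z, hz⟩ := hull_pow p x
    rcases O.mem_or_inv_mem z with h | h
    · exact Or.inl ⟨n, z, h, hz⟩
    · exact Or.inr ⟨n, z⁻¹, h, by rw [inv_pow, hz, map_inv₀]⟩

/-- The map of the perfect hulls. -/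
private theorem hull_map (p : ℕ) [Fact p.Prime] {K L : Type u} [Field K] [CharP K p] [Field L]
    [Algebra K L] : ∃ g : Hull K →+* Hull L,
      ∀ a : K, g (algebraMap K (Hull K) a) = algebraMap L (Hull L) (algebraMap K L a) := by
  have : CharP L p := charP_of_injective_algebraMap (algebraMap K L).injective p
  have : ExpChar K p := ExpChar.prime Fact.out
  have : ExpChar L p := ExpChar.prime Fact.out
  let f : AlgebraicClosure K →ₐ[K] AlgebraicClosure L := IsAlgClosed.lift
  have hf : ∀ x : Hull K, f x.1 ∈ perfectClosure L (AlgebraicClosure L) := by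
    intro x
    obtain ⟨n, z, hz⟩ := (mem_perfectClosure_iff_pow_mem p).1 x.2
    refine (mem_perfectClosure_iff_pow_mem p).2 ⟨n, algebraMap K L z, ?_⟩
    rw [← map_pow, ← hz, f.commutes, ← IsScalarTower.algebraMap_apply]
  let g : Hull K →+* Hull L :=
    { toFun := fun x => ⟨f x.1, hf x⟩
      map_one' := Subtype.ext (map_one f)
      map_mul' := fun a b => Subtype.ext (map_mul f a.1 b.1)
      map_zero' := Subtype.ext (map_zero f)
      map_add' := fun a b => Subtype.ext (map_add f a.1 b.1) }
  refine ⟨g, fun a => Subtype.ext ?_⟩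
  change f (algebraMap K (AlgebraicClosure K) a) =
    algebraMap L (AlgebraicClosure L) (algebraMap K L a)
  rw [f.commutes, ← IsScalarTower.algebraMap_apply]

/-- Systems over `K` solvable in `L` are solvable in the perfect hull of `K`, if the perfect hull
of `K` is existentially closed in all its extensions with a rational place.

Proof. A `K`-embedding `AlgebraicClosure K → AlgebraicClosure L` maps `Hull K` into `Hull L`
(elements with `p ^ n`-th power in `K`); it makes `E = Hull L` an algebra over `Hull K`. Let `O'` be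
as in `hull_ring`. It contains `Hull K`. If `x ∈ O'`, `x ^ p ^ n = y ∈ O`, choose `c ∈ K` with
`v (y - c) < 1` and `d ∈ Hull K` with `d ^ p ^ n = c`; then `(x - d) ^ p ^ n = y - c` is not a unit
of `O` (or is zero), and so `v' (x - d) < 1`. (Use: for `z ∈ O'` the value is `< 1` iff `z = 0` or
`z⁻¹ ∉ O'`.) The hypothesis gives `EC (Hull K) (Hull L)`; map the coefficients of the system. -/
theorem perfPl (p : ℕ) [Fact p.Prime] {K L : Type u} [Field K] [CharP K p] [Field L] [Algebra K L]
    (O : ValuationSubring L) (hO : IsRat K O)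
    (H : ∀ (E : Type u) [Field E] [Algebra (Hull K) E] (O' : ValuationSubring E),
      IsRat (Hull K) O' → EC (Hull K) E) : Tr K L (Hull K) := by
  classical
  have : CharP L p := charP_of_injective_algebraMap (algebraMap K L).injective p
  have : CharP (Hull L) p := charP_of_injective_algebraMap (algebraMap L (Hull L)).injective p
  obtain ⟨O', hO'⟩ := hull_ring p O
  obtain ⟨g, hg⟩ := hull_map p (K := K) (L := L)
  let _ : Algebra (Hull K) (Hull L) := g.toAlgebra
  have hga : ∀ a : Hull K, algebraMap (Hull K) (Hull L) a = g a := fun _ => rfl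
  have hrat : IsRat (Hull K) O' := by
    constructor
    · intro a
      obtain ⟨n, z, hz⟩ := hull_pow p a
      exact (hO' _).2 ⟨n, algebraMap K L z, hO.1 z, by rw [hga, ← map_pow, hz, hg]⟩
    · intro x hx
      obtain ⟨n, y, hy, hxy⟩ := (hO' x).1 hx
      obtain ⟨c, hc⟩ := hO.2 y hy
      obtain ⟨d, hd⟩ := hull_mk p n c
      refine ⟨d, ?_⟩
      have hw : (x - algebraMap (Hull K) (Hull L) d) ^ p ^ n =
          algebraMap L (Hull L) (y - algebraMap K L c) := by
        rw [sub_pow_char_pow, hxy, hga, ← map_pow, hd, hg, map_sub]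
      by_contra hcon
      rw [not_lt] at hcon
      have hz0 : x - algebraMap (Hull K) (Hull L) d ≠ 0 := by
        intro h0
        rw [h0, map_zero] at hcon
        exact absurd hcon (not_le.2 zero_lt_one)
      have hinv : (x - algebraMap (Hull K) (Hull L) d)⁻¹ ∈ O' := by
        rw [← ValuationSubring.valuation_le_one_iff, map_inv₀]
        exact inv_le_one_of_one_le₀ hcon
      obtain ⟨m, y', hy', hxy'⟩ := (hO' _).1 hinv
      have h1 : (y - algebraMap K L c) ^ p ^ m * y' ^ p ^ n = 1 := by
        apply (algebraMap L (Hull L)).injective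
        rw [map_mul, map_pow, map_pow, ← hw, ← hxy', ← pow_mul, ← pow_mul, map_one,
          mul_comm (p ^ m) (p ^ n), ← mul_pow, mul_inv_cancel₀ hz0, one_pow]
      have h2 : O.valuation ((y - algebraMap K L c) ^ p ^ m * y' ^ p ^ n) < 1 := by
        have hp : p.Prime := Fact.out
        rw [map_mul, map_pow, map_pow]
        have h3 : O.valuation (y - algebraMap K L c) ^ p ^ m < 1 :=
          pow_lt_one₀ zero_le hc (pow_pos hp.pos m).ne'
        have h4 : O.valuation y' ^ p ^ n ≤ 1 :=
          pow_le_one₀ zero_le ((ValuationSubring.valuation_le_one_iff O y').2 hy')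
        calc O.valuation (y - algebraMap K L c) ^ p ^ m * O.valuation y' ^ p ^ n
            ≤ O.valuation (y - algebraMap K L c) ^ p ^ m * 1 := mul_le_mul_right h4 _
          _ < 1 := by rwa [mul_one]
      rw [h1, map_one] at h2
      exact lt_irrefl _ h2
  have hEC := H (Hull L) O' hrat
  intro n S hS
  obtain ⟨x, hx⟩ := hS
  obtain ⟨y, hy⟩ := hEC n (S.image (MvPolynomial.map (algebraMap K (Hull K)))) (by
    refine ⟨fun i => algebraMap L (Hull L) (x i), fun q hq => ?_⟩
    obtain ⟨r, hr, rfl⟩ := Finset.mem_image.1 hq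
    have h1 := hx r hr
    have h2 : MvPolynomial.aeval (fun i => algebraMap L (Hull L) (x i))
        (MvPolynomial.map (algebraMap K (Hull K)) r) =
        algebraMap L (Hull L) (MvPolynomial.aeval x r) := by
      rw [MvPolynomial.aeval_def, MvPolynomial.aeval_def, MvPolynomial.eval₂_map,
        MvPolynomial.hom_eval₂]
      have h3 : (algebraMap (Hull K) (Hull L)).comp (algebraMap K (Hull K)) =
          (algebraMap L (Hull L)).comp (algebraMap K L) := RingHom.ext hg
      rw [h3]
    rw [h2, h1, map_zero])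
  refine ⟨y, fun q hq => ?_⟩
  have := hy _ (Finset.mem_image_of_mem _ hq)
  rwa [MvPolynomial.aeval_map_algebraMap] at this

end Pool.Agent.R4F
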