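import Pool.Agent.Lib.MP_4ed7e0_lc_F.Defs

/-!
# MP_4ed7e0_lc, project F: extensions with a rational place are separable
-/

set_option autoImplicit false

namespace Pool.Agent.R4F

universe u

open Pool.Agent.R4A

private theorem RatSep_val_le {K L : Type u} [Field K] [Field L] [Algebra K L]
    {O : ValuationSubring L} (h : IsRat K O) (c : K) : O.valuation (algebraMap K L c) ≤ 1 :=
  (O.valuation_le_one_iff _).2 (h.1 c)

private theorem RatSep_val_eq {K L : Type u} [Field K] [Field L] [Algebra K L]
    {O : ValuationSubring L} (h : IsRat K O) {c : K} (hc : c ≠ 0) :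
    O.valuation (algebraMap K L c) = 1 := by
  refine le_antisymm (RatSep_val_le h c) ?_
  by_contra h1
  rw [not_le] at h1
  have h2 : O.valuation (algebraMap K L c) * O.valuation (algebraMap K L c⁻¹) < 1 :=
    mul_lt_one_of_lt_of_le h1 (RatSep_val_le h c⁻¹)
  rw [← map_mul, ← map_mul, mul_inv_cancel₀ hc, map_one, map_one] at h2
  exact lt_irrefl _ h2

/-- The `p`-th powers of independent elements are independent.

Proof. Induction on `n`. For `n + 1` elements let `v (x j)` be the largest value. For `i ≠ j` we
have `x i / x j ∈ O`, so there is `l i ∈ K` with `v (x i - l i * x j) < v (x j)`. Let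
`x' i = x i - l i * x j` for `i ≠ j`; these `n` elements are independent. In
`∑ c i * x i ^ p = ∑_{i ≠ j} c i * x' i ^ p + (c j + ∑_{i ≠ j} c i * l i ^ p) * x j ^ p` the last
summand has a larger value than the others unless its coefficient is zero (elements of `K` other
than `0` have the value one). So the coefficient is zero, and by induction `c i = 0` for `i ≠ j`,
then also `c j = 0`. -/
theorem rat_ind (p : ℕ) [Fact p.Prime] {K L : Type u} [Field K] [CharP K p] [Field L] [Algebra K L]
    {O : ValuationSubring L} (h : IsRat K O) (n : ℕ) (x : Fin n → L) (hx : LinearIndependent K x) :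
    LinearIndependent K (fun i => x i ^ p) := by
  have : CharP L p := charP_of_injective_algebraMap (algebraMap K L).injective p
  have hp : p ≠ 0 := (Fact.out : p.Prime).ne_zero
  induction n with
  | zero => exact linearIndependent_empty_type
  | succ n ih =>
    obtain ⟨j, hj⟩ := Finite.exists_max (fun i => O.valuation (x i))
    have hxj : x j ≠ 0 := hx.ne_zero j
    have hvj : O.valuation (x j) ≠ 0 := (Valuation.ne_zero_iff _).2 hxj
    have hl : ∀ i, ∃ l : K, O.valuation (x i - algebraMap K L l * x j) < O.valuation (x j) := by
      intro i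
      have h1 : x i / x j ∈ O := by
        rw [← O.valuation_le_one_iff, map_div₀]
        exact div_le_one_of_le₀ (hj i) zero_le
      obtain ⟨l, h2⟩ := h.2 _ h1
      refine ⟨l, ?_⟩
      have h3 : x i - algebraMap K L l * x j = (x i / x j - algebraMap K L l) * x j := by
        rw [sub_mul, div_mul_cancel₀ _ hxj]
      rw [h3, map_mul]
      exact mul_lt_of_lt_one_left (zero_lt_iff.2 hvj) h2
    choose l hl using hl
    have hx' : LinearIndependent K
        (fun i : Fin n => x (j.succAbove i) - algebraMap K L (l (j.succAbove i)) * x j) := by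
      rw [Fintype.linearIndependent_iff] at hx ⊢
      intro c hc i
      have h1 := hx (j.insertNth (-∑ k, c k * l (j.succAbove k)) c) (by
        rw [Fin.sum_univ_succAbove _ j]
        simp only [Fin.insertNth_apply_same, Fin.insertNth_apply_succAbove]
        rw [← hc, neg_smul, Finset.sum_smul, neg_add_eq_sub, ← Finset.sum_sub_distrib]
        refine Finset.sum_congr rfl fun k _ => ?_
        rw [smul_sub, mul_smul, Algebra.smul_def (l (j.succAbove k))]) (j.succAbove i)
      simpa only [Fin.insertNth_apply_succAbove] using h1
    have ih1 := ih _ hx'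
    rw [Fintype.linearIndependent_iff] at ih1 ⊢
    intro c hc
    have h1 : ∑ i, c i • x i ^ p = (c j + ∑ i, c (j.succAbove i) * l (j.succAbove i) ^ p) •
        x j ^ p + ∑ i, c (j.succAbove i) •
          (x (j.succAbove i) - algebraMap K L (l (j.succAbove i)) * x j) ^ p := by
      rw [Fin.sum_univ_succAbove _ j, add_smul, Finset.sum_smul, add_assoc,
        ← Finset.sum_add_distrib]
      congr 1
      refine Finset.sum_congr rfl fun k _ => ?_
      rw [sub_pow_char, mul_pow, ← map_pow, ← Algebra.smul_def, smul_sub, mul_smul]
      abel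
    have h2 : c j + ∑ i, c (j.succAbove i) * l (j.succAbove i) ^ p = 0 := by
      by_contra h3
      rw [hc] at h1
      have h4 : O.valuation (∑ i, c (j.succAbove i) •
          (x (j.succAbove i) - algebraMap K L (l (j.succAbove i)) * x j) ^ p) <
          O.valuation (x j) ^ p := by
        apply Valuation.map_sum_lt _ (pow_ne_zero _ hvj)
        intro i _
        rw [Algebra.smul_def, map_mul, map_pow]
        exact mul_lt_of_le_one_of_lt (RatSep_val_le h _) (pow_lt_pow_left₀ (hl _) zero_le hp)
      have h5 : (c j + ∑ i, c (j.succAbove i) * l (j.succAbove i) ^ p) • x j ^ p =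
          -(∑ i, c (j.succAbove i) •
          (x (j.succAbove i) - algebraMap K L (l (j.succAbove i)) * x j) ^ p) :=
        eq_neg_of_add_eq_zero_left h1.symm
      rw [← Valuation.map_neg, ← h5, Algebra.smul_def, map_mul, RatSep_val_eq h h3, one_mul,
        map_pow] at h4
      exact lt_irrefl _ h4
    rw [hc, h2, zero_smul, zero_add] at h1
    have h3 := ih1 _ h1.symm
    rw [Fin.forall_iff_succAbove j]
    refine ⟨?_, h3⟩
    have h4 : ∑ i, c (j.succAbove i) * l (j.succAbove i) ^ p = 0 :=
      Finset.sum_eq_zero fun i _ => by rw [h3 i, zero_mul]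
    rwa [h4, add_zero] at h2

theorem ratSep (p : ℕ) [Fact p.Prime] {K L : Type u} [Field K] [CharP K p] [Field L] [Algebra K L]
    {O : ValuationSubring L} (h : IsRat K O) : Sepa p K L := by
  intro s hs
  have h1 : LinearIndependent K (fun i : Fin s.card => ((s.equivFin.symm i : s) : L)) :=
    hs.comp s.equivFin.symm s.equivFin.symm.injective
  have h2 := rat_ind p h _ _ h1
  have h3 := h2.comp s.equivFin s.equivFin.injective
  have h4 : (fun i : Fin s.card => ((s.equivFin.symm i : s) : L) ^ p) ∘ s.equivFin =
      fun i : s => (i : L) ^ p := by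
    funext i
    simp only [Function.comp_apply, Equiv.symm_apply_apply]
  rw [h4] at h3
  exact h3

end Pool.Agent.R4F
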