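import Pool.Agent.Lib.MP_4ed7e0_lc_F.Tower
import Pool.Agent.Lib.MP_4ed7e0_lc_F.Gen
import Pool.Agent.Lib.MP_4ed7e0_lc_F.RatSep
import Pool.Agent.Lib.MP_4ed7e0_lc_F.PerfPl

/-!
# MP_4ed7e0_lc, project F: the main theorem
-/

set_option autoImplicit false

namespace Pool.Agent.R4F

universe u

open Pool.Agent.R4A

/-- Proof. `→`: a solution in `K` is a solution in `Hull K`. `←`: `gen` for the system, `pts` for the
smooth algebra `C` (with `k = K`), `tower`. -/
theorem main1 (p : ℕ) [Fact p.Prime] {K L : Type u} [Field K] [CharP K p] [Field L] [Algebra K L]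
    (hK : Large K) (hT : FewAS p K) (hs : Sepa p K L) : EC K L ↔ Tr K L (Hull K) := by
  constructor
  · intro h n S hS
    obtain ⟨x, hx⟩ := h n S hS
    refine ⟨fun i => algebraMap K (Hull K) (x i), fun q hq => ?_⟩
    have h1 := MvPolynomial.aeval_algebraMap_apply (Hull K) x q
    rw [hx q hq, map_zero] at h1
    exact h1
  · intro h n S hS
    obtain ⟨C, _, _, hft, hsm, ⟨f⟩, hC⟩ := gen p hs S hS
    obtain ⟨g⟩ := pts (k := K) (K := K) h f
    exact hC K (tower p hK hT g)

/-- The corollary for rational places. -/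
theorem main2 (p : ℕ) [Fact p.Prime] {K : Type u} [Field K] [CharP K p] (hK : Large K)
    (hT : FewAS p K)
    (H : ∀ (E : Type u) [Field E] [Algebra (Hull K) E] (O' : ValuationSubring E),
      IsRat (Hull K) O' → EC (Hull K) E) (L : Type u) [Field L] [Algebra K L]
    (O : ValuationSubring L) (hO : IsRat K O) : EC K L :=
  (main1 p hK hT (ratSep p hO)).2 (perfPl p O hO H)

end Pool.Agent.R4F
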