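import Pool.Agent.Lib.MP_4ed7e0_lc_F.Defs

/-!
# MP_4ed7e0_lc, project F: the pigeonhole principle for Artin-Schreier classes
-/

set_option autoImplicit false

namespace Pool.Agent.R4F

universe u

/-- Solutions of the equations `s ^ p = ε ^ (p - 1) * s + a` for a small `ε`.

Proof. Let `T` be the set of representatives from `hM` and `w j = φ (X⁻¹ ^ (j + 1))` for `j : ℕ`,
`X` the variable (`HahnSeries.single (-(j + 1) : ℤ) 1`). Choose `c j i ∈ T`, `y j i` with
`a i * w j ^ p = c j i + (y j i ^ p - y j i)`. The map `j ↦ c j` takes finitely many values, so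
`c j = c l` for some `j < l`. With `w = w j - w l`, `y i = y j i - y l i` we have
`a i * w ^ p = y i ^ p - y i` (characteristic `p`: `sub_pow_char`). Here
`w = φ (X ^ (- (l + 1)) * (X ^ (l - j) - 1))`, and `X ^ (l - j) - 1` is a unit of the ring of power
series; let `ε = X ^ (l + 1) * (X ^ (l - j) - 1)⁻¹`, so `φ ε * w = 1`, and `s i = φ ε * y i`. Then
`s i ^ p = φ ε ^ p * (y i + a i * w ^ p) = φ ε ^ (p - 1) * s i + a i`. -/
theorem pig (p : ℕ) [Fact p.Prime] {K M : Type u} [Field K] [CharP K p] [Field M] [Algebra K M]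
    (hM : FewIn p K M) (φ : LaurentSeries K →ₐ[K] M) {n : ℕ} (a : Fin n → K) :
    ∃ (ε : PowerSeries K) (s : Fin n → M), PowerSeries.X ∣ ε ∧
      ∀ i, s i ^ p = φ (HahnSeries.ofPowerSeries ℤ K ε) ^ (p - 1) * s i + algebraMap K M (a i) := by
  classical
  have : CharP M p := charP_of_injective_algebraMap (algebraMap K M).injective p
  obtain ⟨T, hT⟩ := hM
  set t : LaurentSeries K := HahnSeries.ofPowerSeries ℤ K PowerSeries.X with ht
  have ht0 : t ≠ 0 := by
    rw [ht, Ne, map_eq_zero_iff _ HahnSeries.ofPowerSeries_injective]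
    exact PowerSeries.X_ne_zero
  have h1 : ∀ (j : ℕ) (i : Fin n), ∃ c : T, ∃ y : M,
      algebraMap K M (a i) * φ (t⁻¹ ^ (j + 1)) ^ p = algebraMap K M c + (y ^ p - y) := by
    intro j i
    obtain ⟨c, hc, y, hy⟩ := hT (algebraMap K M (a i) * φ (t⁻¹ ^ (j + 1)) ^ p)
    exact ⟨⟨c, hc⟩, y, hy⟩
  choose c y hy using h1
  obtain ⟨j, l, hjl, hc⟩ : ∃ j l : ℕ, j < l ∧ c j = c l := by
    obtain ⟨j, l, hne, he⟩ := Finite.exists_ne_map_eq_of_infinite c
    rcases lt_or_gt_of_ne hne with h | h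
    · exact ⟨j, l, h, he⟩
    · exact ⟨l, j, h, he.symm⟩
  have hu : PowerSeries.constantCoeff (PowerSeries.X ^ (l - j) - 1 : PowerSeries K) ≠ 0 := by
    rw [map_sub, map_pow, PowerSeries.constantCoeff_X, zero_pow (by omega), map_one, zero_sub]
    exact neg_ne_zero.2 one_ne_zero
  set ε : PowerSeries K := PowerSeries.X ^ (l + 1) * (PowerSeries.X ^ (l - j) - 1)⁻¹ with hε
  have hw : HahnSeries.ofPowerSeries ℤ K ε * (t⁻¹ ^ (j + 1) - t⁻¹ ^ (l + 1)) = 1 := by
    have e1 : t ^ (l + 1) * (t⁻¹ ^ (j + 1) - t⁻¹ ^ (l + 1)) = t ^ (l - j) - 1 := by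
      have e2 : t ^ (l + 1) = t ^ (l - j) * t ^ (j + 1) := by
        rw [← pow_add]
        congr 1
        omega
      rw [mul_sub, ← mul_pow t t⁻¹ (l + 1), mul_inv_cancel₀ ht0, one_pow, e2, mul_assoc,
        ← mul_pow t t⁻¹ (j + 1), mul_inv_cancel₀ ht0, one_pow, mul_one]
    have e3 : HahnSeries.ofPowerSeries ℤ K (PowerSeries.X ^ (l - j) - 1) = t ^ (l - j) - 1 := by
      rw [map_sub, map_pow, map_one]
    rw [hε, map_mul, map_pow, mul_assoc,
      mul_comm (HahnSeries.ofPowerSeries ℤ K _ : LaurentSeries K), ← mul_assoc, e1,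
      ← e3, ← map_mul, PowerSeries.mul_inv_cancel _ hu, map_one]
  have hφ : φ (HahnSeries.ofPowerSeries ℤ K ε) * (φ (t⁻¹ ^ (j + 1)) - φ (t⁻¹ ^ (l + 1))) = 1 := by
    rw [← map_sub, ← map_mul, hw, map_one]
  refine ⟨ε, fun i => φ (HahnSeries.ofPowerSeries ℤ K ε) * (y j i - y l i), ?_, fun i => ?_⟩
  · rw [hε, pow_succ', mul_assoc]
    exact dvd_mul_right _ _
  · have h2 : algebraMap K M (a i) * (φ (t⁻¹ ^ (j + 1)) - φ (t⁻¹ ^ (l + 1))) ^ p =
        (y j i - y l i) ^ p - (y j i - y l i) := by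
      rw [sub_pow_char, sub_pow_char, mul_sub, hy, hy, hc]
      ring
    have hp : p - 1 + 1 = p := Nat.sub_add_cancel (Fact.out : p.Prime).one_lt.le
    have h3 : (φ (HahnSeries.ofPowerSeries ℤ K ε) * (y j i - y l i)) ^ p =
        φ (HahnSeries.ofPowerSeries ℤ K ε) ^ p * ((y j i - y l i) ^ p - (y j i - y l i)) +
          φ (HahnSeries.ofPowerSeries ℤ K ε) ^ (p - 1) *
            (φ (HahnSeries.ofPowerSeries ℤ K ε) * (y j i - y l i)) := by
      have h4 : φ (HahnSeries.ofPowerSeries ℤ K ε) ^ p =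
          φ (HahnSeries.ofPowerSeries ℤ K ε) ^ (p - 1) * φ (HahnSeries.ofPowerSeries ℤ K ε) := by
        rw [← pow_succ, hp]
      rw [mul_pow, h4]
      ring
    rw [h3, ← h2, mul_left_comm, ← mul_pow, hφ, one_pow, mul_one, add_comm]

end Pool.Agent.R4F
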