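import Pool.Agent.Lib.MP_4ed7e0_lc_F.Defs

/-!
# MP_4ed7e0_lc, project F: points of finitely generated algebras
-/

set_option autoImplicit false

namespace Pool.Agent.R4F

universe u

open Pool.Agent.R4A

/-- `Tr` for points of finitely generated algebras. The algebra `C` lives over a field `k`, the
fields `M`, `N` over a field `K` over `k`.

Proof. A finitely generated algebra over a field is finitely presented
(`Algebra.FinitePresentation.of_finiteType`): there are a surjection
`π : MvPolynomial (Fin n) k →ₐ[k] C` and a finite set `R` of generators of its kernel. Let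
`S = R.image (MvPolynomial.map (algebraMap k K))`. The point `x i = f (π (X i))` of `M` solves `S`
(`MvPolynomial.aeval_map_algebraMap`). So there is a solution `z` in `N`, and
`aeval z : MvPolynomial (Fin n) k →ₐ[k] N` kills the kernel of `π`; use `π` surjective
(`Ideal.quotientKerAlgEquivOfSurjective`, `Ideal.Quotient.liftₐ`). -/
theorem pts {k K M N : Type u} [Field k] [Field K] [Field M] [Field N] [Algebra k K] [Algebra K M]
    [Algebra K N] [Algebra k M] [Algebra k N] [IsScalarTower k K M] [IsScalarTower k K N]
    (h : Tr K M N) {C : Type u} [CommRing C] [Algebra k C] [Algebra.FiniteType k C]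
    (f : C →ₐ[k] M) : Nonempty (C →ₐ[k] N) := by
  classical
  obtain ⟨n, π, hπ⟩ := Algebra.FiniteType.iff_quotient_mvPolynomial''.1
    (inferInstance : Algebra.FiniteType k C)
  obtain ⟨R, hR⟩ : (RingHom.ker π).FG := IsNoetherian.noetherian _
  have hRk : ∀ r ∈ R, π r = 0 := by
    intro r hr
    have h1 : r ∈ RingHom.ker π := by
      rw [← hR]
      exact Ideal.subset_span (Finset.mem_coe.2 hr)
    exact h1
  have hx : Solv K M (R.image (MvPolynomial.map (algebraMap k K))) := by
    refine ⟨fun i => f (π (MvPolynomial.X i)), fun q hq => ?_⟩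
    obtain ⟨r, hr, rfl⟩ := Finset.mem_image.1 hq
    rw [MvPolynomial.aeval_map_algebraMap]
    have h1 : (MvPolynomial.aeval fun i => f (π (MvPolynomial.X i))) = f.comp π := by
      ext i
      simp
    rw [h1, AlgHom.comp_apply, hRk r hr, map_zero]
  obtain ⟨z, hz⟩ := h n _ hx
  have hz' : ∀ r : MvPolynomial (Fin n) k, r ∈ RingHom.ker π →
      (MvPolynomial.aeval z : MvPolynomial (Fin n) k →ₐ[k] N) r = 0 := by
    have h1 : RingHom.ker π ≤
        RingHom.ker (MvPolynomial.aeval z : MvPolynomial (Fin n) k →ₐ[k] N) := by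
      rw [← hR, Ideal.span_le]
      intro r hr
      have h2 := hz _ (Finset.mem_image_of_mem (MvPolynomial.map (algebraMap k K))
        (Finset.mem_coe.1 hr))
      rw [MvPolynomial.aeval_map_algebraMap] at h2
      exact h2
    intro r hr
    exact h1 hr
  exact ⟨(Ideal.Quotient.liftₐ (RingHom.ker π)
    (MvPolynomial.aeval z : MvPolynomial (Fin n) k →ₐ[k] N) hz').comp
    (Ideal.quotientKerAlgEquivOfSurjective hπ).symm.toAlgHom⟩

/-- Large fields: the same for finite systems in any (possibly infinite) set of variables.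

Proof. Only finitely many variables occur: `MvPolynomial.exists_finset_rename` for each polynomial,
or `MvPolynomial.mem_range_rename_iff_vars_subset`-like lemmas with the finite union of the sets
`q.vars`; the other variables are put to zero. -/
theorem large_any {K : Type u} [Field K] (hK : Large K) {σ : Type u}
    (S : Finset (MvPolynomial σ K)) (x : σ → LaurentSeries K)
    (hx : ∀ q ∈ S, MvPolynomial.aeval x q = 0) :
    ∃ z : σ → K, ∀ q ∈ S, MvPolynomial.aeval z q = 0 := by
  classical
  obtain ⟨V, hV⟩ : ∃ V : Finset σ, ∀ q ∈ S, q.vars ⊆ V :=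
    ⟨S.biUnion fun q => q.vars, fun q hq => Finset.subset_biUnion_of_mem (fun q => q.vars) hq⟩
  let e : V ≃ Fin V.card := V.equivFin
  let g : MvPolynomial σ K →ₐ[K] MvPolynomial (Fin V.card) K :=
    MvPolynomial.aeval fun i => if h : i ∈ V then MvPolynomial.X (e ⟨i, h⟩) else 0
  have hg : ∀ {A : Type u} [CommRing A] [Algebra K A] (y : Fin V.card → A)
      (q : MvPolynomial σ K), MvPolynomial.aeval y (g q) =
        MvPolynomial.aeval (fun i => if h : i ∈ V then y (e ⟨i, h⟩) else 0) q := by
    intro A _ _ y q
    have h1 : (MvPolynomial.aeval y).comp g =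
        MvPolynomial.aeval (fun i => if h : i ∈ V then y (e ⟨i, h⟩) else 0) := by
      ext i
      rw [AlgHom.comp_apply, MvPolynomial.aeval_X, MvPolynomial.aeval_X]
      by_cases hi : i ∈ V
      · rw [dif_pos hi, dif_pos hi, MvPolynomial.aeval_X]
      · rw [dif_neg hi, dif_neg hi, map_zero]
    exact DFunLike.congr_fun h1 q
  obtain ⟨y, hy⟩ := hK V.card (S.image g) ⟨fun j => x (e.symm j), fun q' hq' => by
    obtain ⟨q, hq, rfl⟩ := Finset.mem_image.1 hq'
    rw [hg]
    refine Eq.trans ?_ (hx q hq)
    have hc : (MvPolynomial.aeval fun i => if h : i ∈ V then x (e.symm (e ⟨i, h⟩)) else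
        (0 : LaurentSeries K)).toRingHom q =
        (MvPolynomial.aeval x : MvPolynomial σ K →ₐ[K] LaurentSeries K).toRingHom q := by
      refine MvPolynomial.hom_congr_vars ?_ (fun i hi _ => ?_) rfl
      · ext a
        simp
      · have hiV : i ∈ V := hV q hq hi
        simp [hiV]
    exact hc⟩
  refine ⟨fun i => if h : i ∈ V then y (e ⟨i, h⟩) else 0, fun q hq => ?_⟩
  rw [← hg]
  exact hy _ (Finset.mem_image_of_mem g hq)

end Pool.Agent.R4F
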