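import Pool.Agent.Lib.MP_4ed7e0_lc_F.Ult
import Pool.Agent.Lib.MP_4ed7e0_lc_F.Com
import Pool.Agent.Lib.MP_4ed7e0_lc_F.Pig
import Pool.Agent.Lib.MP_4ed7e0_lc_F.Frb

/-!
# MP_4ed7e0_lc, project F: descent of points from an extension of exponent one
-/

set_option autoImplicit false

namespace Pool.Agent.R4F

universe u

open Pool.Agent.R4A

/-- The adjunction of elements which are integral over the image of the power series is finite, and
the `K`-algebra structure is compatible.

Proof. Let `A` be the subalgebra over `PowerSeries K` generated by the `s i`; `s i` is a root of the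
monic polynomial `Y ^ p - ε ^ (p - 1) Y - a i` (`fg_adjoin_of_finite`). -/
theorem fin_adj (p : ℕ) [Fact p.Prime] {K M : Type u} [Field K] [Field M] [Algebra K M]
    [Algebra (PowerSeries K) M] [IsScalarTower K (PowerSeries K) M] {n : ℕ} (ε : PowerSeries K)
    (a : Fin n → K) (s : Fin n → M)
    (hs : ∀ i, s i ^ p = algebraMap (PowerSeries K) M ε ^ (p - 1) * s i + algebraMap K M (a i)) :
    Module.Finite (PowerSeries K) (Algebra.adjoin (PowerSeries K) (Set.range s)) := by
  refine Algebra.finite_adjoin_of_finite_of_isIntegral (Set.finite_range s) ?_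
  rintro _ ⟨i, rfl⟩
  obtain ⟨m, hm⟩ : ∃ m, p = m + 1 := ⟨p - 1, by have := (Fact.out : p.Prime).one_le; omega⟩
  have hm1 : 1 ≤ m := by have := (Fact.out : p.Prime).two_le; omega
  refine ⟨Polynomial.X ^ (m + 1) - (Polynomial.C (ε ^ (p - 1)) * Polynomial.X +
    Polynomial.C (algebraMap K (PowerSeries K) (a i))), ?_, ?_⟩
  · refine Polynomial.monic_X_pow_sub ?_
    refine lt_of_lt_of_le Polynomial.degree_linear_lt ?_
    have h2 : 2 ≤ m + 1 := by omega
    exact_mod_cast h2
  · have h1 := hs i
    rw [← hm]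
    simp only [Polynomial.eval₂_sub, Polynomial.eval₂_pow, Polynomial.eval₂_X,
      Polynomial.eval₂_add, Polynomial.eval₂_mul, Polynomial.eval₂_C, map_pow]
    rw [h1, ← IsScalarTower.algebraMap_apply K (PowerSeries K) M, sub_self]

private theorem Step_lift (p : ℕ) [Fact p.Prime] {k K E A : Type u} [Field k] [CharP k p]
    [Field K] [Algebra k K] [Field E] [Algebra K E] [Algebra k E] [IsScalarTower k K E]
    [CommRing A] [CharP A p] [Algebra K A] [Algebra k A] [IsScalarTower k K A] (I : Ideal A)
    [IsAdicComplete I.radical A] {C : Type u} [CommRing C] [Algebra k C]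
    [Algebra.FormallySmooth k C] {n : ℕ} (π : MvPolynomial (Fin n) k →ₐ[k] C)
    (hπ : Function.Surjective π) (f : C →ₐ[k] E) (a : Fin n → K)
    (ha : ∀ i, f (π (MvPolynomial.X i)) ^ p = algebraMap K E (a i)) (x : Fin n → A)
    (hx : ∀ i, x i ^ p - algebraMap K A (a i) ∈ I) : Nonempty (C →ₐ[k] A) := by
  let g0 : MvPolynomial (Fin n) k →ₐ[k] A ⧸ I.radical :=
    (Ideal.Quotient.mkₐ k I.radical).comp (MvPolynomial.aeval x)
  have hker : ∀ r ∈ RingHom.ker π, g0 r = 0 := by
    intro r hr
    have h0 : MvPolynomial.aeval (fun i => f (π (MvPolynomial.X i))) r = 0 := by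
      have h1 : MvPolynomial.aeval (fun i => f (π (MvPolynomial.X i))) = f.comp π := by
        ext i
        simp
      rw [h1, AlgHom.comp_apply, RingHom.mem_ker.1 hr, map_zero]
    have h2 := frb_mem p r (fun i => f (π (MvPolynomial.X i))) a ha h0 I x hx
    change Ideal.Quotient.mk I.radical (MvPolynomial.aeval x r) = 0
    rw [Ideal.Quotient.eq_zero_iff_mem]
    exact ⟨p, h2⟩
  let g : C →ₐ[k] A ⧸ I.radical :=
    (Ideal.Quotient.liftₐ (RingHom.ker π) g0 hker).comp
      (Ideal.quotientKerAlgEquivOfSurjective hπ).symm.toAlgHom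
  obtain ⟨g', -⟩ := Algebra.FormallySmooth.exists_mkₐ_comp_eq_of_isAdicComplete g
  exact ⟨g'⟩

/-- Descent of points of a smooth algebra.

Proof. Take `M`, `φ` from `ult`. Let `π : MvPolynomial (Fin n) k →ₐ[k] C` be surjective,
`τ i = f (π (X i))`, `τ i ^ p = a i ∈ K`. `pig` gives `ε`, `s`. Make `M` a `PowerSeries K`-algebra by
`φ` and `HahnSeries.ofPowerSeries`; let `A` be the subalgebra generated by the `s i`, `I` the ideal
generated by `X`, `J = I.radical`, `A` is `J`-adically complete (`com`, `fin_adj`). By `frb_mem` the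
homomorphism `MvPolynomial (Fin n) k → A / J`, `X i ↦ s i`, kills the kernel of `π`
(`s i ^ p - a i = ε ^ (p - 1) * s i ∈ I`, `p ≥ 2`), so it factors through `C`. By
`Algebra.FormallySmooth.exists_mkₐ_comp_eq_of_isAdicComplete` it lifts to `C →ₐ[k] A`, and
`A ⊆ M`. Now use `pts` with `EC K M`. -/
theorem step (p : ℕ) [Fact p.Prime] {k K E : Type u} [Field k] [CharP k p] [Field K] [CharP K p]
    [Algebra k K] [Field E] [Algebra K E] [Algebra k E] [IsScalarTower k K E] (hK : Large K)
    (hT : FewAS p K) {C : Type u} [CommRing C] [Algebra k C] [Algebra.FiniteType k C]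
    [Algebra.FormallySmooth k C] (f : C →ₐ[k] E)
    (hf : ∀ c, ∃ a : K, f c ^ p = algebraMap K E a) : Nonempty (C →ₐ[k] K) := by
  obtain ⟨M, iF, iA, hEC, hFew, ⟨φ⟩⟩ := ult hK
  have hM : FewIn p K M := hFew p hT
  let akM : Algebra k M := ((algebraMap K M).comp (algebraMap k K)).toAlgebra
  have tkM : IsScalarTower k K M := IsScalarTower.of_algebraMap_eq fun _ => rfl
  obtain ⟨n, π, hπ⟩ := Algebra.FiniteType.iff_quotient_mvPolynomial''.1
    (inferInstance : Algebra.FiniteType k C)
  choose a ha using fun i => hf (π (MvPolynomial.X i))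
  obtain ⟨ε, s, hXε, hs⟩ := pig p hM φ a
  let aPM : Algebra (PowerSeries K) M :=
    ((φ : LaurentSeries K →+* M).comp (HahnSeries.ofPowerSeries ℤ K)).toAlgebra
  have tPM : IsScalarTower K (PowerSeries K) M := by
    refine IsScalarTower.of_algebraMap_eq fun c => ?_
    change algebraMap K M c = φ (HahnSeries.ofPowerSeries ℤ K (algebraMap K (PowerSeries K) c))
    rw [← φ.commutes c]
    congr 1
  have tkPM : IsScalarTower k (PowerSeries K) M := by
    refine IsScalarTower.of_algebraMap_eq fun c => ?_
    have h1 : algebraMap k (PowerSeries K) c =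
        algebraMap K (PowerSeries K) (algebraMap k K c) := by
      rw [PowerSeries.algebraMap_apply, PowerSeries.algebraMap_apply]
      rfl
    rw [h1, ← IsScalarTower.algebraMap_apply K (PowerSeries K) M]
    rfl
  have hs' : ∀ i, s i ^ p = algebraMap (PowerSeries K) M ε ^ (p - 1) * s i +
      algebraMap K M (a i) := hs
  have hfin := fin_adj p ε a s hs'
  generalize hA : Algebra.adjoin (PowerSeries K) (Set.range s) = A at hfin
  have hsA : ∀ i, s i ∈ A := fun i => by
    rw [← hA]
    exact Algebra.subset_adjoin ⟨i, rfl⟩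
  have tkKA : IsScalarTower k K A := IsScalarTower.of_algebraMap_eq fun c =>
    Subtype.ext rfl
  have hchar : CharP A p := charP_of_injective_algebraMap (algebraMap K A).injective p
  have hcom : IsAdicComplete (Ideal.span {algebraMap (PowerSeries K) A PowerSeries.X}).radical A :=
    com
  obtain ⟨g⟩ := Step_lift p (k := k) (K := K) (E := E)
    (Ideal.span {algebraMap (PowerSeries K) A PowerSeries.X}) π hπ f a ha
    (fun i => (⟨s i, hsA i⟩ : A)) (fun i => by
      have e1 : (⟨s i, hsA i⟩ : A) ^ p - algebraMap K A (a i) =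
          algebraMap (PowerSeries K) A ε ^ (p - 1) * ⟨s i, hsA i⟩ := by
        apply Subtype.ext
        change s i ^ p - algebraMap K M (a i) = algebraMap (PowerSeries K) M ε ^ (p - 1) * s i
        rw [hs' i, add_sub_cancel_right]
      rw [e1]
      refine Ideal.mul_mem_right _ _ (Ideal.pow_mem_of_mem _ ?_ _ ?_)
      · rw [Ideal.mem_span_singleton]
        exact map_dvd _ hXε
      · have := (Fact.out : p.Prime).two_le
        omega)
  exact pts hEC ((A.val.restrictScalars k).comp g)

end Pool.Agent.R4F
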