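import Pool.Agent.Lib.MP_4ed7e0_lc_F.Step
import Pool.Agent.Lib.MP_4ed7e0_lc_F.Iso

/-!
# MP_4ed7e0_lc, project F: descent of points from the perfect hull
-/

set_option autoImplicit false

namespace Pool.Agent.R4F

universe u

open Pool.Agent.R4A

/-- Descent from `Kp p K Ω m` to `K`, for a homomorphism to `Ω` with image in `Kp p K Ω m`.

Proof. Induction on `m`. `m = 0`: the image is in `K` (`IntermediateField.botEquiv`-like, or
`AlgHom.codRestrict` with `(algebraMap K Ω).range`). `m + 1`: `step` with `k = K` and the large field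
`Kp p K Ω m` (`Kp_equiv`, `Large.of_equiv`, `FewAS.of_equiv`), `E = Ω`: `(g c) ^ p` is in
`Kp p K Ω m`. The resulting homomorphism `C → Kp p K Ω m → Ω` has its image in `Kp p K Ω m`. -/
theorem tower_aux (p : ℕ) [Fact p.Prime] {K : Type u} [Field K] [CharP K p] (hK : Large K)
    (hT : FewAS p K) (Ω : Type u) [Field Ω] [Algebra K Ω] [IsAlgClosed Ω] {C : Type u}
    [CommRing C] [Algebra K C] [Algebra.FiniteType K C] [Algebra.FormallySmooth K C] (m : ℕ)
    (g : C →ₐ[K] Ω) (hg : ∀ c, g c ∈ Kp p K Ω m) : Nonempty (C →ₐ[K] K) := by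
  induction m generalizing g with
  | zero =>
    have h1 : ∀ c, g c ∈ (Algebra.ofId K Ω).range := by
      intro c
      obtain ⟨a, ha⟩ := hg c
      refine ⟨a, ?_⟩
      rw [pow_zero, pow_one] at ha
      exact ha.symm
    exact ⟨((AlgEquiv.ofInjective (Algebra.ofId K Ω)
      (algebraMap K Ω).injective).symm.toAlgHom).comp (g.codRestrict _ h1)⟩
  | succ m ih =>
    obtain ⟨e⟩ := Kp_equiv p K Ω m
    have hch : CharP (Kp p K Ω m) p :=
      charP_of_injective_algebraMap (algebraMap K (Kp p K Ω m)).injective p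
    obtain ⟨g'⟩ := step p (k := K) (K := Kp p K Ω m) (E := Ω) (Large.of_equiv e hK)
      (FewAS.of_equiv e hT) g (fun c => by
        obtain ⟨a, ha⟩ := hg c
        refine ⟨⟨g c ^ p, a, ?_⟩, rfl⟩
        rw [← pow_mul, ← pow_succ']
        exact ha)
    exact ih ((Kp p K Ω m).val.comp g') (fun c => (g' c).2)

private theorem Tower_mono (p : ℕ) [Fact p.Prime] {K Ω : Type u} [Field K] [CharP K p] [Field Ω]
    [Algebra K Ω] {m m' : ℕ} (h : m ≤ m') {x : Ω} (hx : x ∈ Kp p K Ω m) : x ∈ Kp p K Ω m' := by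
  obtain ⟨a, ha⟩ := hx
  obtain ⟨k, rfl⟩ := Nat.exists_eq_add_of_le h
  refine ⟨a ^ p ^ k, ?_⟩
  rw [pow_add, pow_mul, ha, map_pow]

/-- Proof. The finitely many generators of `C` have their images in `Kp p K Ω m` for a common `m`
(`mem_perfectClosure_iff_pow_mem`), hence the whole image is there; `tower_aux`. -/
theorem tower (p : ℕ) [Fact p.Prime] {K : Type u} [Field K] [CharP K p] (hK : Large K)
    (hT : FewAS p K) {C : Type u} [CommRing C] [Algebra K C] [Algebra.FiniteType K C]
    [Algebra.FormallySmooth K C] (f : C →ₐ[K] Hull K) : Nonempty (C →ₐ[K] K) := by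
  have hexp : ExpChar K p := ExpChar.prime (Fact.out : p.Prime)
  let g : C →ₐ[K] AlgebraicClosure K := (perfectClosure K (AlgebraicClosure K)).val.comp f
  obtain ⟨s, hs⟩ := (inferInstance : Algebra.FiniteType K C).out
  have h1 : ∀ c : C, ∃ n : ℕ, g c ∈ Kp p K (AlgebraicClosure K) n := by
    intro c
    obtain ⟨n, a, ha⟩ := (mem_perfectClosure_iff_pow_mem (F := K) (E := AlgebraicClosure K) p).1
      (f c).2
    exact ⟨n, a, ha.symm⟩
  choose N hN using h1
  refine tower_aux p hK hT (AlgebraicClosure K) (s.sup N) g fun c => ?_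
  have h2 : Algebra.adjoin K (s : Set C) ≤
      (Kp p K (AlgebraicClosure K) (s.sup N)).toSubalgebra.comap g := by
    refine Algebra.adjoin_le fun x hx => ?_
    exact Tower_mono p (Finset.le_sup (f := N) hx) (hN x)
  rw [hs] at h2
  exact h2 Algebra.mem_top

end Pool.Agent.R4F
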