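import Pool.Agent.Lib.MP_4ed7e0_lc_F.Pts

/-!
# MP_4ed7e0_lc, project F: the ultrapower
-/

set_option autoImplicit false

namespace Pool.Agent.R4F

universe u

open Pool.Agent.R4A

/-- Solutions in an ultrapower give solutions in `K`, and the classes modulo `y ^ p - y` do not
become more numerous.

Proof of the first part. Write the coordinates of a solution as germs of functions `g j : ι → K`
(choose representatives). The value of a polynomial at the germs is the germ of its value at the
functions (`Filter.Germ.coeRingHom`-like ring homomorphism `(ι → K) →+* Germ`,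
`MvPolynomial.aeval` and `Pi.evalRingHom`), so for almost all `i` the point `(g j i)` solves all
equations of the finite system; the ultrafilter is nonempty. Proof of the second part. For the
germ of `g` choose `c i ∈ T`, `y i` with `g i = c i + (y i ^ p - y i)`; the finitely many sets
`{i | c i = t}`, `t ∈ T`, cover `ι`, so `c` is constant on a set of the ultrafilter. The algebra
structure of the germs over `K` is the one by constant functions. -/
theorem ult_tr {K : Type u} [Field K] {ι : Type u} (U : Ultrafilter ι)
    [Algebra K (Filter.Germ (U : Filter ι) K)]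
    (hal : ∀ c : K, algebraMap K (Filter.Germ (U : Filter ι) K) c =
      ((fun _ => c : ι → K) : Filter.Germ (U : Filter ι) K)) :
    EC K (Filter.Germ (U : Filter ι) K) ∧
      ∀ p, FewAS p K → FewIn p K (Filter.Germ (U : Filter ι) K) := by
  classical
  refine ⟨?_, ?_⟩
  · rintro n S ⟨x, hx⟩
    choose g hg using fun j => Quotient.exists_rep (x j)
    have hg' : ∀ j, x j = ((g j : ι → K) : Filter.Germ (U : Filter ι) K) := fun j => (hg j).symm
    have key : ∀ q : MvPolynomial (Fin n) K, MvPolynomial.aeval x q =
        ((fun i => MvPolynomial.aeval (fun j => g j i) q : ι → K) :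
          Filter.Germ (U : Filter ι) K) := by
      intro q
      have h1 : (MvPolynomial.aeval x : MvPolynomial (Fin n) K →ₐ[K] _).toRingHom =
          (Filter.Germ.coeRingHom (R := K) (U : Filter ι)).comp
            (RingHom.pi fun i => (MvPolynomial.aeval (fun j => g j i) :
              MvPolynomial (Fin n) K →ₐ[K] K).toRingHom) := by
        refine MvPolynomial.ringHom_ext (fun c => ?_) (fun j => ?_)
        · have e1 : (MvPolynomial.aeval x : MvPolynomial (Fin n) K →ₐ[K] _).toRingHom
              (MvPolynomial.C c) = algebraMap K (Filter.Germ (U : Filter ι) K) c := by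
            simp
          rw [e1, hal]
          have e2 : (fun _ : ι => c) = (RingHom.pi fun i =>
              (MvPolynomial.aeval (fun j => g j i) :
                MvPolynomial (Fin n) K →ₐ[K] K).toRingHom) (MvPolynomial.C c) := by
            funext i
            exact (MvPolynomial.aeval_C (R := K) (S₁ := K) (fun j => g j i) c).symm
          rw [RingHom.comp_apply, ← e2]
          rfl
        · have e1 : (MvPolynomial.aeval x : MvPolynomial (Fin n) K →ₐ[K] _).toRingHom
              (MvPolynomial.X j) = x j := by
            simp
          rw [e1, hg']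
          have e2 : g j = (RingHom.pi fun i =>
              (MvPolynomial.aeval (fun j => g j i) :
                MvPolynomial (Fin n) K →ₐ[K] K).toRingHom) (MvPolynomial.X j) := by
            funext i
            exact (MvPolynomial.aeval_X (R := K) (S₁ := K) (fun j => g j i) j).symm
          rw [RingHom.comp_apply, ← e2]
          rfl
      exact RingHom.congr_fun h1 q
    have hev : ∀ᶠ i in (U : Filter ι), ∀ q ∈ S, MvPolynomial.aeval (fun j => g j i) q = 0 := by
      rw [Filter.eventually_all_finset]
      intro q hq
      have h1 := hx q hq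
      rw [key q] at h1
      have h2 : ((fun i => MvPolynomial.aeval (fun j => g j i) q : ι → K) :
          Filter.Germ (U : Filter ι) K) = ((fun _ => 0 : ι → K) :
          Filter.Germ (U : Filter ι) K) := h1
      exact Filter.Germ.coe_eq.1 h2
    obtain ⟨i, hi⟩ := hev.exists
    exact ⟨fun j => g j i, hi⟩
  · rintro p ⟨T, hT⟩
    refine ⟨T, fun x => ?_⟩
    obtain ⟨g, rfl⟩ := Quotient.exists_rep x
    choose c hc y hy using fun i => hT (g i)
    have h1 : ∀ᶠ i in (U : Filter ι), ∃ t ∈ (T : Set K), c i = t :=
      Filter.Eventually.of_forall fun i => ⟨c i, hc i, rfl⟩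
    obtain ⟨t, ht, h2⟩ := (Ultrafilter.eventually_exists_mem_iff T.finite_toSet).1 h1
    refine ⟨t, ht, ((y : ι → K) : Filter.Germ (U : Filter ι) K), ?_⟩
    rw [hal]
    have h3 : ((g : ι → K) : Filter.Germ (U : Filter ι) K) =
        ((fun i => t + (y i ^ p - y i) : ι → K) : Filter.Germ (U : Filter ι) K) := by
      rw [Filter.Germ.coe_eq]
      filter_upwards [h2] with i hi
      rw [← hi]
      exact hy i
    exact h3

/-- An ultrapower of a large field `K` contains the field of Laurent series.

Proof. Let `ι` be the type of the finite subsets `s` of the set of all polynomials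
`q : MvPolynomial (LaurentSeries K) K` with `aeval id q = 0`, and `U` an ultrafilter finer than
`Filter.atTop` on `ι` (`Ultrafilter.of`). By `large_any` choose for each `s` a function
`z s : LaurentSeries K → K` with `aeval (z s) q = 0` for all `q ∈ s`. The map which sends
`x : LaurentSeries K` to the germ of `s ↦ z s x` is a homomorphism of `K`-algebras: the polynomials
`X (x + y) - X x - X y`, `X (x * y) - X x * X y`, `X (C c) - C c` belong to all large `s`. -/
theorem ult {K : Type u} [Field K] (hK : Large K) :
    ∃ (M : Type u) (_ : Field M) (_ : Algebra K M), EC K M ∧ (∀ p, FewAS p K → FewIn p K M) ∧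
      Nonempty (LaurentSeries K →ₐ[K] M) := by
  classical
  let Q : Type u := {q : MvPolynomial (LaurentSeries K) K // MvPolynomial.aeval id q = 0}
  let ι : Type u := Finset Q
  let U : Ultrafilter ι := Ultrafilter.of Filter.atTop
  have hU : (U : Filter ι) ≤ Filter.atTop := Ultrafilter.of_le _
  have hz : ∀ s : ι, ∃ z : LaurentSeries K → K, ∀ q ∈ s, MvPolynomial.aeval z q.1 = 0 := by
    intro s
    obtain ⟨z, hz⟩ := large_any hK (s.image Subtype.val) id (fun q hq => by
      obtain ⟨q', -, rfl⟩ := Finset.mem_image.1 hq
      exact q'.2)
    exact ⟨z, fun q hq => hz _ (Finset.mem_image_of_mem _ hq)⟩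
  choose z hz using hz
  have hev : ∀ q : MvPolynomial (LaurentSeries K) K, MvPolynomial.aeval id q = 0 →
      ∀ᶠ s in (U : Filter ι), MvPolynomial.aeval (z s) q = 0 := by
    intro q hq
    have h1 : ∀ᶠ s : ι in Filter.atTop, ({⟨q, hq⟩} : Finset Q) ≤ s :=
      Filter.eventually_ge_atTop _
    filter_upwards [hU h1] with s hs
    exact hz s ⟨q, hq⟩ (hs (Finset.mem_singleton_self _))
  let M : Type u := Filter.Germ (U : Filter ι) K
  let alg : Algebra K (Filter.Germ (U : Filter ι) K) :=
    RingHom.toAlgebra ((Filter.Germ.coeRingHom (R := K) (U : Filter ι)).comp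
      (Pi.constRingHom ι K))
  have hal : ∀ c : K, algebraMap K (Filter.Germ (U : Filter ι) K) c =
      ((fun _ => c : ι → K) : Filter.Germ (U : Filter ι) K) := fun c => rfl
  obtain ⟨h1, h2⟩ := ult_tr U hal
  refine ⟨Filter.Germ (U : Filter ι) K, inferInstance, alg, h1, h2, ⟨?_⟩⟩
  refine
    { toFun := fun x => ((fun s => z s x : ι → K) : Filter.Germ (U : Filter ι) K)
      map_one' := ?_
      map_mul' := fun x y => ?_
      map_zero' := ?_
      map_add' := fun x y => ?_
      commutes' := fun c => ?_ }
  · refine Filter.Germ.coe_eq.2 ?_
    filter_upwards [hev (MvPolynomial.X 1 - 1) (by simp)] with s hs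
    simpa [sub_eq_zero] using hs
  · refine Filter.Germ.coe_eq.2 ?_
    filter_upwards [hev (MvPolynomial.X (x * y) - MvPolynomial.X x * MvPolynomial.X y)
      (by simp)] with s hs
    simpa [sub_eq_zero] using hs
  · refine Filter.Germ.coe_eq.2 ?_
    filter_upwards [hev (MvPolynomial.X 0) (by simp)] with s hs
    simpa using hs
  · refine Filter.Germ.coe_eq.2 ?_
    filter_upwards [hev (MvPolynomial.X (x + y) - (MvPolynomial.X x + MvPolynomial.X y))
      (by simp)] with s hs
    simpa [sub_eq_zero] using hs
  · refine Filter.Germ.coe_eq.2 ?_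
    filter_upwards [hev (MvPolynomial.X (algebraMap K (LaurentSeries K) c) - MvPolynomial.C c)
      (by simp)] with s hs
    simpa [sub_eq_zero] using hs

end Pool.Agent.R4F
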